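import Pool.Agent.Q187.Par.Fin

/-!
# Parshin's conjecture in weight `n`: products of `2n` factors

Let `T` be a pure theory over the field with `q` elements, for instance the rational motivic
cohomology groups `T^r(Z) = H^(2r-m)(Z, ℚ(r)) = CH^r(Z, m)_ℚ` for a fixed `m > 0`, and let `𝒮` be
a family of smooth projective varieties whose homologically trivial self-correspondences of degree
zero are nilpotent (for instance all curves). Then `T^n` vanishes on all products of members of
`𝒮`, and even on all varieties whose motives are direct factors of sums of effective twists of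
such products, if (and only if) it vanishes on the products of exactly `2n` members.
-/

set_option autoImplicit false

open CategoryTheory AlgebraicGeometry

universe u v w

namespace Pool.Agent.Results.MP_de59b4_ag.TwoNFactors

open Pool.Agent.H914 Pool.Agent.H914.VarClass Pool.Agent.H914.VarClass.Obj
  Pool.Agent.W492.BB Pool.Agent.TH133 Pool.Agent.Q56.CP Q187.Par

/-- **Weight `n` of Parshin's conjecture.** -/
theorem result {k : Type u} [Field k] {𝒱 : VarClass k} {C : TheoryData.{u, v, 0} 𝒱 ℚ}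
    [IsChowProj C] {K : Type w} [Field K] [CharZero K] {H : WeilTheoryData.{u, v, w} C K}
    [IsWeilProj H] {Fr : ∀ X : 𝒱.Obj, X ⟶ X} {q : ℕ} (hq : 1 < q) (hFr : IsFrob H Fr q)
    (T : Pure C Fr q) {𝒮 : Set 𝒱.Obj} (hN : ∀ X ∈ 𝒮, Nilp H X) (n : ℕ) :
    (∀ s : ℕ, 1 ≤ s → s ≤ 2 * n → (∀ X ∈ 𝒮, Conn H s X) →
      ((∀ m, 1 ≤ m → ∀ Z, IsProdOf 𝒮 m Z → T.gr Z n = ⊥) ↔
        ∀ Z, IsProdOf 𝒮 (2 * n / s) Z → T.gr Z n = ⊥)) ∧
    ((∃ X ∈ 𝒮, 0 < X.dim) →
      ((∀ Z, IsEffFactor C 𝒮 Z → ∀ j : ℤ, j ≤ n → T.gr Z j = ⊥) ↔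
        ∀ Z, IsProdOf 𝒮 (2 * n) Z → T.gr Z n = ⊥)) :=
  parshin_exact hq hFr T hN n

end Pool.Agent.Results.MP_de59b4_ag.TwoNFactors
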