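import Mathlib
import Pool.Agent.Q219.UZ.RThmA
import Pool.Agent.Q219.UZ.MomentField

/-!
# Parshin's conjecture for products of abelian varieties and arbitrary varieties

Fix a prime `p`, a nonempty finite set `κ`, dimensions `g i ≥ 1` and, for each `i`, a symmetric
Newton polygon with slopes `s i j` and `1 - s i j` (`j < g i`, increasing in `j`, between `0` and
`1 / 2`, with integral break points: `IsPolygon (s i)`) whose smallest slope is at most `σ < 1 / 2`;
so it is any Newton polygon that is not the supersingular one. `NewtonStratum g s p a` is the set
of families of isogeny classes of abelian varieties `A_i` of dimension `g i` over the field with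
`p ^ a` elements having these Newton polygons (by the theorem of Honda and Tate it consists of
families of characteristic polynomials of Frobenius). Let `devSum (s i)`, `sqSum (s i)` be the sums of
the numbers `1 - 2 s i j` and of their squares, and let `0 < δ ≤ 1`, `δ₂ > 0` be numbers such that
`δ g i ≤ devSum (s i)` and `δ₂ g i ≤ sqSum (s i)` for all `i`. So `δ = δ₂ = 1` if the `A_i` are
ordinary.

We prove that the number of elements of `NewtonStratum g s p a` tends to infinity with `a`, and that
for all members, except for at most

  `C * a * p ^ (- a (1 - 2 σ) / 6) * |NewtonStratum g s p a|`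

(`C` depends on `p`, `g`, `s`, `σ` only), the following is true.

Let `k` be the field with `Q = p ^ (a s')` elements, for any `s' > 0`. Let `𝒜` be the class of the
abelian varieties `A` over `k` which are isogenous to a product of powers of the `A_i`, of any
dimension, and let `X` be an element of `𝒜` in which all `A_i` occur, for instance the product of the
`A_i`. Let `Z` be a smooth projective variety over `k` whose homologically trivial self-correspondences
of degree zero are nilpotent (`Nilpotence`); by Kimura and O'Sullivan this is so for all curves and
for all varieties dominated by products of curves, and it is conjectured for all `Z`. Nothing is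
assumed on the Frobenius eigenvalues of `Z`, and `Z` is independent of the exceptional set.

Let `T` be a theory on which correspondences act (`MotivicData`, `IsMotivic`), and such that Frobenius
acts on `T ^ c (A × Z)` as multiplication by `Q ^ c`. The main example is the motivic cohomology
`T ^ c (Y) = H ^ (2 c - m) (Y, ℚ(c)) = CH ^ c (Y, m)_ℚ` for a fixed `m > 0`, so that the conjecture
`P ^ c` for `Y` is the statement `T ^ c (Y) = 0` for all these `T`; here `T ^ c = 0` for `c < 0`, and
`T ^ 0 = T ^ 1 = 0` is known.

* (`VanishingTimes`) Let `e` be a real number such that `Z` has level at most `e`, that is the slopes of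
  `H ^ w (Z)` lie between `(w - e) / 2` and `(w + e) / 2`; `e = dim Z` is always possible. Let
  `n` be a number with `(n + 1) δ > e`; so one can take `n = dim Z` if the `A_i` are ordinary.
  Then **Parshin's conjecture holds for `A × Z` for all `A` in `𝒜`, of arbitrary dimension, if and
  only if it holds for the single variety `X ^ n × Z`**, in fact in the weights at most
  `dim Z + (n - ⌊e⌋) / 2`. More precisely `T ^ c (A × Z) = 0` if `T ^ c' (X ^ n × Z) = 0` for all such
  `c' ≤ c`. For instance let `Z` be a product of `d` curves, `e = d`, and the `A_i` ordinary: then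
  `P ^ c` for `X ^ d × Z` with `c ≤ d` implies `P ^ c` for `A × Z` for all `A` in `𝒜` and all `c`.
* (`VanishingTimesNarrow`) Let `δ > 1 / 3`. **Parshin's conjecture is true in all weights for `A × Z` for
  all curves `Z`** and all `A` in `𝒜`; also for all surfaces `Z` for which it is true (and which satisfy
  `Nilpotence`) such that each Frobenius eigenvalue `ρ` on `H ^ 2 (Z)` has its slopes in
  `(1 - δ, 1 + δ)`, or the mean of `(λ - 1) ^ 2`, `λ` the slopes of the conjugates of `ρ`, is smaller than
  `δ₂ / 2`. For example let `Z` be the product of two curves, the Jacobian of one of which has no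
  slope `0`, and let the `A_i` be ordinary: then all hypotheses are theorems (Soulé), and the higher
  K-groups of `A × Z` are torsion. The same is true for varieties `Z` of any dimension `d` with similar
  conditions on the slopes of `H ^ w (Z)`, `1 < w < 2 d - 1`. The only facts about `T` used are
  `T ^ 1 (X × Z) = 0` and `T ^ c' (Z) = 0` for `c' ≤ d`, `c' ≤ c`, if one wants to have `T ^ c (A × Z) = 0`; so
  `P ^ c` for `Z` for all `c ≤ m` implies the same for `A × Z`.

In the formal statement `IsTripleFor`, with an abelian variety `B` in the place of `X ^ n`, lists what is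
used: that Frobenius acts on the Chow groups of `Z` in the usual way, and on the cohomology of `Z` with
eigenvalues which are Weil numbers (Deligne); that the cohomology of `A`, `B`, `A × A`, `A × B` is
generated by `H ^ 1`, where Frobenius has the given eigenvalues, and the theorem of Tate on divisors
on them; the nilpotence for `A` (Kimura, Shermenev) and for `Z`; and in the narrow case that the
isomorphism `H ^ (2 d - 1) (Z) → H ^ 1 (Z)` is given by a divisor on `Z × Z` (`HasInverse`; Kleiman).

The proof. By nilpotence the two Frobenius endomorphisms of `A × Z` satisfy polynomial relations on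
`T ^ c (A × Z)`, and there is a common eigenvector `z ≠ 0`: the eigenvalues are conjugates of an
eigenvalue `α` on `H(A)` and `β` on `H(Z)`, with `α β = Q ^ c`. Here `α` is a product of roots `z j` of the
Frobenius polynomials. One removes the pairs of roots with product `Q`. The Galois group contains
the automorphisms which replace one of the remaining `m` roots by its complex conjugate (this is
what the sieve provides), so that some conjugate of the relation has the largest possible
`p`-adic valuation: this gives `m δ ≤ e`, and `m δ₂` is at most the mean of `(2 λ - w) ^ 2`. So the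
reduced product is an eigenvalue on `H ^ m (X ^ n)`, and the component of the diagonal of `A` which belongs
to `α` is homologically, and therefore up to numerical equivalence with rational coefficients, a sum
of compositions of correspondences from `A` to `X ^ n` and back, of the right degrees, which are
polynomials in divisors. Their difference is homologically trivial and therefore nilpotent. As
the compositions factor through `T ^ c' (X ^ n × Z) = 0`, `z = 0`. Neither the Tate conjecture for `A × Z`
nor the one for `X ^ n × Z` is used.
-/

set_option autoImplicit false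

namespace Pool.Agent.Results.MP_de59b4_ag.UniversalFactor

open Polynomial Pool.Agent.Q219.NS Pool.Agent.Q219.NW Pool.Agent.Q219.UZ Pool.Agent.Q219.UZ.Lite

/-- The theorem for the family of isogeny classes over the field with `q` elements with the
Frobenius polynomials `F i`, of dimension `g i` and slopes `s i j`. -/
def Holds {κ : Type} (g : κ → ℕ) (s : ∀ i, Fin (g i) → ℚ) (q : ℕ) (F : κ → ℤ[X]) : Prop :=
  ∀ δ δ₂ : ℝ, 0 < δ → δ ≤ 1 → 0 < δ₂ → (∀ i, δ * g i ≤ devSum (s i)) →
    (∀ i, δ₂ * g i ≤ sqSum (s i)) →
    VanishingTheorem δ δ₂ q F

/-- **Parshin's conjecture for `A × Z`, for all `Z`, for the abelian varieties `A` outside of a thin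
subset of a Newton stratum.** -/
theorem result {κ : Type} [Fintype κ] [Nonempty κ] (p : ℕ) [Fact p.Prime]
    -- dimensions and Newton polygons
    (g : κ → ℕ) (hg : ∀ i, 1 ≤ g i) (s : ∀ i, Fin (g i) → ℚ) (hs : ∀ i, IsPolygon (s i))
    -- the smallest slopes
    (σ : ℚ) (hσ : ∀ i (h : 0 < g i), s i ⟨0, h⟩ ≤ σ) (hσ2 : σ < 1 / 2) :
    (∀ N : ℕ, ∃ a₀ : ℕ, ∀ a, a₀ ≤ a →
      (NewtonStratum g s p a).Finite ∧ N ≤ (NewtonStratum g s p a).ncard) ∧
    ∃ C : ℝ, 0 < C ∧ ∀ a : ℕ, 0 < a →
      ({F ∈ NewtonStratum g s p a | ¬ Holds g s (p ^ a) F}.ncard : ℝ) ≤
        C * (a * (p : ℝ) ^ (-((a : ℝ) * (1 - 2 * σ) / 6))) *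
          ((NewtonStratum g s p a).ncard : ℝ) := by
  obtain ⟨h1, C, hC, h2⟩ := count_moment p g hg s hs σ hσ hσ2
  refine ⟨h1, C, hC, fun a ha => h2 a ha _ fun f hf hf2 δ δ₂ hδ0 hδ1 hδ₂0 hδ hδ₂ => ?_⟩
  have hp : p.Prime := Fact.out
  have hq : 1 < p ^ a := Nat.one_lt_pow ha.ne' hp.one_lt
  exact vanishingTheorem (hf δ hδ) (hf2 δ₂ hδ₂) hδ0 hδ1 hδ₂0 hq

end Pool.Agent.Results.MP_de59b4_ag.UniversalFactor
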